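import Mathlib

/-!
# Mumford groups and generalized Heisenberg groups: definitions
-/

namespace Pool.Agent.H43.Mumford

universe u v w x

/-- `G` is a *Mumford group* with centre isomorphic to the circle group: all commutators are
central (nilpotency class at most two), there is an isomorphism of topological groups `e` from
the centre of `G` onto the circle group, and the Mumford map
`M : G / Z(G) → Hom (G / Z(G), Z(G))`, `M (x Z(G)) (y Z(G)) = [x, y] = x y x⁻¹ y⁻¹`, becomes, after the
identification of `Z(G)` with the circle by `e`, an isomorphism of topological groups from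
`G / Z(G)` onto its Pontryagin dual. -/
def IsMumfordGroup (G : Type x) [Group G] [TopologicalSpace G] [IsTopologicalGroup G] : Prop :=
  (∀ a b : G, a * b * a⁻¹ * b⁻¹ ∈ Subgroup.center G) ∧
    ∃ e : Subgroup.center G ≃ₜ* Circle,
      ∃ M : (G ⧸ Subgroup.center G) ≃ₜ* PontryaginDual (G ⧸ Subgroup.center G),
        ∀ a b : G,
          ((e.symm (M (a : G ⧸ Subgroup.center G) (b : G ⧸ Subgroup.center G)) :
            Subgroup.center G) : G) = a * b * a⁻¹ * b⁻¹

/-- The generalized Heisenberg group of a biadditive map `ω : E × F → A`: its underlying set is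
`A × E × F`. -/
structure GenHeis {A : Type u} {E : Type v} {F : Type w} [AddCommGroup A] [AddCommGroup E]
    [AddCommGroup F] (ω : E →+ F →+ A) where
  /-- the coordinate in `A` -/
  a : A
  /-- the coordinate in `E` -/
  b : E
  /-- the coordinate in `F` -/
  c : F

namespace GenHeis

variable {A : Type u} {E : Type v} {F : Type w} [AddCommGroup A] [AddCommGroup E]
  [AddCommGroup F] {ω : E →+ F →+ A}

@[ext] theorem ext' {x y : GenHeis ω} (ha : x.a = y.a) (hb : x.b = y.b) (hc : x.c = y.c) :
    x = y := by
  cases x; cases y; simp_all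

/-- The multiplication `(a, b, c) (a', b', c') = (a + a' + ω (b, c'), b + b', c + c')`. -/
instance : Mul (GenHeis ω) := ⟨fun x y => ⟨x.a + y.a + ω x.b y.c, x.b + y.b, x.c + y.c⟩⟩

instance : One (GenHeis ω) := ⟨⟨0, 0, 0⟩⟩

instance : Inv (GenHeis ω) := ⟨fun x => ⟨-x.a + ω x.b x.c, -x.b, -x.c⟩⟩

@[simp] theorem mul_a (x y : GenHeis ω) : (x * y).a = x.a + y.a + ω x.b y.c := rfl
@[simp] theorem mul_b (x y : GenHeis ω) : (x * y).b = x.b + y.b := rfl
@[simp] theorem mul_c (x y : GenHeis ω) : (x * y).c = x.c + y.c := rfl
@[simp] theorem one_a : (1 : GenHeis ω).a = 0 := rfl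
@[simp] theorem one_b : (1 : GenHeis ω).b = 0 := rfl
@[simp] theorem one_c : (1 : GenHeis ω).c = 0 := rfl
@[simp] theorem inv_a (x : GenHeis ω) : (x⁻¹).a = -x.a + ω x.b x.c := rfl
@[simp] theorem inv_b (x : GenHeis ω) : (x⁻¹).b = -x.b := rfl
@[simp] theorem inv_c (x : GenHeis ω) : (x⁻¹).c = -x.c := rfl

instance : Group (GenHeis ω) :=
  Group.ofLeftAxioms
    (fun x y z => by
      ext
      · simp only [mul_a, mul_b, mul_c, map_add, AddMonoidHom.add_apply]; abel
      · simp only [mul_b]; abel
      · simp only [mul_c]; abel)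
    (fun x => by ext <;> simp)
    (fun x => by ext <;> simp)

variable [TopologicalSpace A] [TopologicalSpace E] [TopologicalSpace F]

/-- The product topology of `A × E × F`. -/
instance : TopologicalSpace (GenHeis ω) :=
  TopologicalSpace.induced (fun x : GenHeis ω => (x.a, x.b, x.c)) inferInstance

end GenHeis

/-- `G` is a *generalized Heisenberg group*: it is isomorphic, as a topological group, to the
generalized Heisenberg group `A × E × F` of some continuous biadditive map `ω : E × F → A`
between topological abelian groups. -/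
def IsGeneralizedHeisenberg (G : Type x) [Group G] [TopologicalSpace G] : Prop :=
  ∃ (A : Type u) (E : Type v) (F : Type w)
    (_ : AddCommGroup A) (_ : AddCommGroup E) (_ : AddCommGroup F)
    (_ : TopologicalSpace A) (_ : TopologicalSpace E) (_ : TopologicalSpace F)
    (_ : IsTopologicalAddGroup A) (_ : IsTopologicalAddGroup E) (_ : IsTopologicalAddGroup F)
    (ω : E →+ F →+ A),
    Continuous (fun p : E × F => ω p.1 p.2) ∧ Nonempty (G ≃ₜ* GenHeis ω)

end Pool.Agent.H43.Mumford
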