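import Pool.Agent.H43.MumfordTwist

/-!
# Restricted products of finite symplectic groups
-/

noncomputable section

set_option linter.unusedSectionVars false

namespace Pool.Agent.H43.Mumford

open Topology Filter
open scoped RestrictedProduct

universe u v w

variable {ι : Type} {R : ι → Type} [∀ i, AddCommGroup (R i)] [∀ i, TopologicalSpace (R i)]
  [∀ i, DiscreteTopology (R i)] [∀ i, Finite (R i)]

/-- A family of finite abelian groups with alternating bicharacters `c i` and subgroups `L i` that
are their own orthogonals. -/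
structure Fam (R : ι → Type) [∀ i, AddCommGroup (R i)] where
  L : ∀ i, AddSubgroup (R i)
  c : ∀ i, R i → R i → Circle
  add_left : ∀ i x y z, c i (x + y) z = c i x z * c i y z
  add_right : ∀ i x y z, c i x (y + z) = c i x y * c i x z
  alt : ∀ i x, c i x x = 1
  iso : ∀ i x y, x ∈ L i → y ∈ L i → c i x y = 1
  perp : ∀ i x, (∀ y ∈ L i, c i x y ^ 2 = 1) → x ∈ L i
  nondeg : ∀ i x, (∀ y, c i x y ^ 2 = 1) → x = 0
  surj : ∀ i (χ : AddChar (R i) Circle), ∃ x, ∀ y, χ y = c i x y ^ 2

namespace Fam

variable (D : Fam R)

theorem zero_left (i : ι) (y : R i) : D.c i 0 y = 1 := by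
  have h := D.add_left i 0 0 y
  rw [add_zero] at h
  exact (mul_eq_left.mp h.symm)

theorem zero_right (i : ι) (x : R i) : D.c i x 0 = 1 := by
  have h := D.add_right i x 0 0
  rw [add_zero] at h
  exact (mul_eq_left.mp h.symm)

/-- The restricted product. -/
abbrev K : Type := Πʳ i : ι, [R i, D.L i]

instance fact_open : Fact (∀ i : ι, IsOpen (D.L i : Set (R i))) := ⟨fun _ => isOpen_discrete _⟩

theorem finite_mulSupport (x y : D.K) :
    (Function.mulSupport fun i => D.c i (x i) (y i)).Finite := by
  have h := x.2.and y.2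
  refine Set.Finite.subset h ?_
  intro i hi hmem
  exact hi (D.iso i _ _ hmem.1 hmem.2)

/-- The global bicharacter. -/
def gf (x y : D.K) : Circle := ∏ᶠ i, D.c i (x i) (y i)

theorem gf_eq_prod (x y : D.K) (I : Finset ι)
    (h : ∀ i ∉ I, D.c i (x i) (y i) = 1) : D.gf x y = ∏ i ∈ I, D.c i (x i) (y i) := by
  apply finprod_eq_prod_of_mulSupport_subset
  intro i hi
  by_contra hI
  exact hi (h i hI)

theorem gf_continuous : Continuous fun p : D.K × D.K => D.gf p.1 p.2 := by
  have hO : ∀ i : ι, IsOpen ((D.L i : AddSubgroup (R i)) : Set (R i)) :=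
    fun i => isOpen_discrete _
  rw [RestrictedProduct.continuous_dom_prod hO hO]
  intro S hS
  have hfin : (Sᶜ).Finite := le_principal_iff.mp hS
  have heq : ((fun p : D.K × D.K => D.gf p.1 p.2) ∘ Prod.map
      (RestrictedProduct.inclusion R (fun i => (D.L i : Set (R i))) hS)
      (RestrictedProduct.inclusion R (fun i => (D.L i : Set (R i))) hS)) =
      fun q => ∏ i ∈ hfin.toFinset, D.c i (q.1 i) (q.2 i) := by
    funext q
    apply gf_eq_prod
    intro i hi
    have hiS : i ∈ S := by
      by_contra h
      exact hi (by simpa using h)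
    apply D.iso
    · exact q.1.2 hiS
    · exact q.2.2 hiS
  rw [heq]
  refine continuous_finsetProd _ ?_
  intro i _
  have hd : Continuous (fun z : R i × R i => D.c i z.1 z.2) :=
    continuous_of_discreteTopology
  exact hd.comp (Continuous.prodMk
    ((RestrictedProduct.continuous_eval i).comp continuous_fst)
    ((RestrictedProduct.continuous_eval i).comp continuous_snd))

/-- The global alternating form. -/
def gForm : AltForm D.K where
  f := D.gf
  add_left x y z := by
    rw [gf, gf, gf, ← finprod_mul_distrib (D.finite_mulSupport x z) (D.finite_mulSupport y z)]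
    apply finprod_congr
    intro i
    rw [RestrictedProduct.add_apply, D.add_left]
  add_right x y z := by
    rw [gf, gf, gf, ← finprod_mul_distrib (D.finite_mulSupport x y) (D.finite_mulSupport x z)]
    apply finprod_congr
    intro i
    rw [RestrictedProduct.add_apply, D.add_right]
  alt x := by
    rw [gf]
    simp [D.alt]
  cont := D.gf_continuous

variable [DecidableEq ι]

/-- The inclusion of a local factor. -/
def sgl (i : ι) (x : R i) : D.K := RestrictedProduct.single D.L i x

theorem sgl_same (i : ι) (x : R i) : D.sgl i x i = x :=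
  RestrictedProduct.single_eq_same _ i x

theorem sgl_ne {i j : ι} (x : R i) (h : j ≠ i) : D.sgl i x j = 0 :=
  RestrictedProduct.single_eq_of_ne _ x h

theorem sgl_add (i : ι) (x y : R i) : D.sgl i (x + y) = D.sgl i x + D.sgl i y :=
  RestrictedProduct.single_add _ i x y

theorem sgl_mem {i : ι} {x : R i} (hx : x ∈ D.L i) (j : ι) :
    D.sgl i x j ∈ D.L j := by
  by_cases h : j = i
  · subst h; rw [sgl_same]; exact hx
  · rw [sgl_ne _ _ h]; exact zero_mem _

theorem gf_sgl_right (x : D.K) (i : ι) (y : R i) : D.gf x (D.sgl i y) = D.c i (x i) y := by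
  rw [gf_eq_prod D x (D.sgl i y) {i}]
  · rw [Finset.prod_singleton, sgl_same]
  · intro j hj
    have : j ≠ i := by simpa using hj
    rw [sgl_ne _ _ this, zero_right]

theorem gForm_nondeg : Tw.Nondeg D.gForm := by
  intro x hx
  apply RestrictedProduct.ext
  intro i
  change x i = 0
  apply D.nondeg
  intro y
  have := hx (D.sgl i y)
  change D.gf x (D.sgl i y) ^ 2 = 1 at this
  rw [gf_sgl_right] at this
  exact this

omit [DecidableEq ι] in
/-- Neighbourhoods of zero contain almost all of the local Lagrangians. -/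
theorem exists_finite_nhds (U : Set D.K) (hU : U ∈ 𝓝 (0 : D.K)) :
    ∃ I : Finset ι, ∀ x : D.K, (∀ i, x i ∈ D.L i) → (∀ i ∈ I, x i = 0) → x ∈ U := by
  have hO : ∀ i : ι, IsOpen ((D.L i : AddSubgroup (R i)) : Set (R i)) :=
    fun i => isOpen_discrete _
  have h1 := RestrictedProduct.nhds_zero_eq_map_structureMap (R := R)
    (B := D.L) hO
  have h0 : (RestrictedProduct.structureMap R
    (fun i => (D.L i : Set (R i))) cofinite 0) = (0 : D.K) := rfl
  rw [h0] at h1
  rw [h1, Filter.mem_map, nhds_pi, Filter.mem_pi] at hU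
  obtain ⟨I, hI, t, ht, hsub⟩ := hU
  refine ⟨hI.toFinset, ?_⟩
  intro x hx hx0
  let x' : ∀ i, ((D.L i : Set (R i)) : Type) := fun i => ⟨x i, hx i⟩
  have hx' : x' ∈ I.pi t := by
    intro i hi
    have h2 : x i = 0 := hx0 i (by simpa using hi)
    have h3 : x' i = 0 := Subtype.ext h2
    rw [h3]
    exact mem_of_mem_nhds (ht i)
  exact hsub hx'

omit [DecidableEq ι] [∀ i, TopologicalSpace (R i)] [∀ i, DiscreteTopology (R i)]
  [∀ i, Finite (R i)] in
theorem nsmul_apply' (n : ℕ) (x : D.K) (i : ι) : (n • x) i = n • x i := rfl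

omit [DecidableEq ι] in
/-- No small subgroups: a continuous character is trivial on almost all of the local
Lagrangians. -/
theorem exists_finite_char (χ : Multiplicative D.K →* Circle) (hχ : Continuous χ) :
    ∃ I : Finset ι, ∀ x : D.K, (∀ i, x i ∈ D.L i) → (∀ i ∈ I, x i = 0) →
      χ (Multiplicative.ofAdd x) = 1 := by
  have hpos := Real.pi_pos
  have hV : (fun x : D.K => χ (Multiplicative.ofAdd x)) ⁻¹' (Circle.centeredArc (Real.pi / 2)) ∈
      𝓝 (0 : D.K) := by
    have hc : Continuous (fun x : D.K => χ (Multiplicative.ofAdd x)) := hχ.comp continuous_ofAdd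
    apply hc.continuousAt
    change Circle.centeredArc (Real.pi / 2) ∈ 𝓝 (χ (Multiplicative.ofAdd (0 : D.K)))
    rw [ofAdd_zero, map_one]
    apply (Circle.isOpen_centeredArc _).mem_nhds
    rw [Circle.mem_centeredArc (by linarith)]
    simp [hpos]
  obtain ⟨I, hI⟩ := D.exists_finite_nhds _ hV
  refine ⟨I, ?_⟩
  intro x hx hx0
  apply Circle.eq_one_of_forall_pow_mem_centeredArc_pi_div_two
  intro n hn
  have h1 := hI (n • x) (fun i => by
    rw [nsmul_apply']
    exact nsmul_mem (hx i) n) (fun i hi => by
    rw [nsmul_apply', hx0 i hi, smul_zero])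
  rw [Set.mem_preimage, ofAdd_nsmul, map_pow] at h1
  exact h1

/-- The part of `x` over a finite set of indices. -/
theorem exists_split (x : D.K) (I : Finset ι) : ∃ y : D.K,
    x = (∑ i ∈ I, D.sgl i (x i)) + y ∧ (∀ i ∈ I, y i = 0) ∧ (∀ i ∉ I, y i = x i) := by
  refine ⟨x - ∑ i ∈ I, D.sgl i (x i), by abel, ?_, ?_⟩
  · intro j hj
    have h1 : (∑ i ∈ I, D.sgl i (x i)) j = x j := by
      have : (∑ i ∈ I, D.sgl i (x i)) j = ∑ i ∈ I, (D.sgl i (x i)) j :=
        map_sum (RestrictedProduct.evalAddMonoidHom R j (𝓕 := cofinite) (B := D.L)) _ _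
      rw [this, Finset.sum_eq_single j]
      · rw [sgl_same]
      · intro b _ hb
        rw [sgl_ne _ _ hb.symm]
      · intro h; exact absurd hj h
    rw [RestrictedProduct.sub_apply, h1, sub_self]
  · intro j hj
    have h1 : (∑ i ∈ I, D.sgl i (x i)) j = 0 := by
      have : (∑ i ∈ I, D.sgl i (x i)) j = ∑ i ∈ I, (D.sgl i (x i)) j :=
        map_sum (RestrictedProduct.evalAddMonoidHom R j (𝓕 := cofinite) (B := D.L)) _ _
      rw [this]
      apply Finset.sum_eq_zero
      intro b hb
      rw [sgl_ne]
      rintro rfl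
      exact hj hb
    rw [RestrictedProduct.sub_apply, h1, sub_zero]

/-- The duality homomorphism attached to the square of the form. -/
def dual : Multiplicative D.K →* PontryaginDual (Multiplicative D.K) where
  toFun x :=
    { toFun := fun y => D.gf (Multiplicative.toAdd x) (Multiplicative.toAdd y) ^ 2
      map_one' := by
        have := D.gForm.zero_right (Multiplicative.toAdd x)
        change D.gf (Multiplicative.toAdd x) 0 = 1 at this
        rw [toAdd_one, this, one_pow]
      map_mul' := by
        intro y z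
        have := D.gForm.add_right (Multiplicative.toAdd x) (Multiplicative.toAdd y)
          (Multiplicative.toAdd z)
        change D.gf _ _ = D.gf _ _ * D.gf _ _ at this
        rw [toAdd_mul, this, mul_pow]
      continuous_toFun := by
        apply Continuous.pow
        exact D.gf_continuous.comp (Continuous.prodMk continuous_const continuous_toAdd) }
  map_one' := by
    apply PontryaginDual.ext
    intro y
    have := D.gForm.zero_left (Multiplicative.toAdd y)
    change D.gf 0 (Multiplicative.toAdd y) = 1 at this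
    change D.gf 0 (Multiplicative.toAdd y) ^ 2 = 1
    rw [this, one_pow]
  map_mul' x z := by
    apply PontryaginDual.ext
    intro y
    have := D.gForm.add_left (Multiplicative.toAdd x) (Multiplicative.toAdd z)
      (Multiplicative.toAdd y)
    change D.gf _ _ = D.gf _ _ * D.gf _ _ at this
    change D.gf (Multiplicative.toAdd (x * z)) (Multiplicative.toAdd y) ^ 2 =
      D.gf (Multiplicative.toAdd x) (Multiplicative.toAdd y) ^ 2 *
      D.gf (Multiplicative.toAdd z) (Multiplicative.toAdd y) ^ 2
    rw [toAdd_mul, this, mul_pow]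

theorem dual_apply (x y : D.K) :
    D.dual (Multiplicative.ofAdd x) (Multiplicative.ofAdd y) = D.gf x y ^ 2 := rfl

theorem dual_continuous : Continuous D.dual := by
  apply ContinuousMonoidHom.continuous_of_continuous_uncurry
  change Continuous (fun p : Multiplicative D.K × Multiplicative D.K =>
    D.gf (Multiplicative.toAdd p.1) (Multiplicative.toAdd p.2) ^ 2)
  apply Continuous.pow
  exact D.gf_continuous.comp (Continuous.prodMk (continuous_toAdd.comp continuous_fst)
    (continuous_toAdd.comp continuous_snd))

theorem dual_injective : Function.Injective D.dual := by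
  rw [injective_iff_map_eq_one]
  intro x hx
  have h : ∀ y : D.K, D.gf (Multiplicative.toAdd x) y ^ 2 = 1 := by
    intro y
    have := DFunLike.congr_fun hx (Multiplicative.ofAdd y)
    exact this
  exact D.gForm_nondeg _ h

theorem dual_surjective : Function.Surjective D.dual := by
  intro χ
  have hχc : Continuous χ := map_continuous χ
  obtain ⟨I, hI⟩ := D.exists_finite_char (χ : Multiplicative D.K →* Circle) hχc
  -- the local characters
  have hloc : ∀ i, ∃ x : R i, ∀ y, χ (Multiplicative.ofAdd (D.sgl i y)) = D.c i x y ^ 2 := by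
    intro i
    let ψ : AddChar (R i) Circle :=
      { toFun := fun y => χ (Multiplicative.ofAdd (D.sgl i y))
        map_zero_eq_one' := by
          have : D.sgl i 0 = 0 := RestrictedProduct.single_zero _ i
          rw [this, ofAdd_zero, map_one]
        map_add_eq_mul' := by
          intro y z
          rw [sgl_add, ofAdd_add, map_mul] }
    exact D.surj i ψ
  choose x hx using hloc
  have hxL : ∀ i ∉ I, x i ∈ D.L i := by
    intro i hi
    apply D.perp
    intro y hy
    rw [← hx]
    apply hI
    · exact D.sgl_mem hy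
    · intro j hj
      rw [sgl_ne]
      rintro rfl
      exact hi hj
  let X : D.K := ⟨x, by
    refine Set.Finite.subset I.finite_toSet ?_
    intro i hi
    by_contra h
    exact hi (hxL i h)⟩
  refine ⟨Multiplicative.ofAdd X, ?_⟩
  apply PontryaginDual.ext
  intro y
  obtain ⟨y, rfl⟩ : ∃ z : D.K, Multiplicative.ofAdd z = y := ⟨Multiplicative.toAdd y, rfl⟩
  have hyfin : {i | y i ∉ D.L i}.Finite := y.2
  let J : Finset ι := I ∪ hyfin.toFinset
  obtain ⟨z, hz, hz0, hz1⟩ := D.exists_split y J
  have hzL : ∀ i, z i ∈ D.L i := by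
    intro i
    by_cases hi : i ∈ J
    · rw [hz0 i hi]; exact zero_mem _
    · rw [hz1 i hi]
      by_contra h
      apply hi
      simp only [J, Finset.mem_union, Set.Finite.mem_toFinset]
      exact Or.inr h
  have e1 : χ (Multiplicative.ofAdd z) = 1 := by
    apply hI z hzL
    intro i hi
    exact hz0 i (Finset.mem_union_left _ hi)
  have e2 : D.gf X z = 1 := by
    rw [gf]
    apply finprod_eq_one_of_forall_eq_one
    intro i
    by_cases hi : i ∈ J
    · rw [hz0 i hi, zero_right]
    · apply D.iso _ _ _ _ (hzL i)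
      exact hxL i (fun h => hi (Finset.mem_union_left _ h))
  rw [dual_apply]
  have e3 : D.gf X y = ∏ i ∈ J, D.c i (x i) (y i) := by
    have h1 : ∀ s : Finset ι, D.gf X (∑ i ∈ s, D.sgl i (y i)) = ∏ i ∈ s, D.c i (x i) (y i) := by
      intro s
      induction s using Finset.induction_on with
      | empty => exact D.gForm.zero_right X
      | insert a s ha ih =>
        rw [Finset.sum_insert ha, Finset.prod_insert ha]
        have := D.gForm.add_right X (D.sgl a (y a)) (∑ i ∈ s, D.sgl i (y i))
        change D.gf _ _ = D.gf _ _ * D.gf _ _ at this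
        rw [this, ih, gf_sgl_right]
        rfl
    have h2 := D.gForm.add_right X (∑ i ∈ J, D.sgl i (y i)) z
    change D.gf _ _ = D.gf _ _ * D.gf _ _ at h2
    rw [← hz, e2, mul_one, h1] at h2
    exact h2
  have e4 : χ (Multiplicative.ofAdd y) = ∏ i ∈ J, D.c i (x i) (y i) ^ 2 := by
    have h1 : ∀ s : Finset ι, χ (Multiplicative.ofAdd (∑ i ∈ s, D.sgl i (y i))) =
        ∏ i ∈ s, D.c i (x i) (y i) ^ 2 := by
      intro s
      induction s using Finset.induction_on with
      | empty => simp
      | insert a s ha ih =>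
        rw [Finset.sum_insert ha, Finset.prod_insert ha, ofAdd_add, map_mul, ih, hx]
    conv_lhs => rw [hz]
    rw [ofAdd_add, map_mul, e1, mul_one, h1]
  rw [e3, e4, Finset.prod_pow]

/-- The restricted product is `σ`-compact. -/
theorem sigmaCompact [Countable ι] : SigmaCompactSpace D.K := by
  have hcomp : ∀ S : Set ι,
      CompactSpace (RestrictedProduct R (fun i => (D.L i : Set (R i))) (𝓟 S)) := by
    intro S
    have hE := RestrictedProduct.isEmbedding_coe_of_principal (R := R)
      (A := fun i => (D.L i : Set (R i))) (S := S)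
    rw [← isCompact_univ_iff, hE.isCompact_iff, Set.image_univ,
      RestrictedProduct.range_coe_principal]
    apply IsClosed.isCompact
    exact isClosed_set_pi (fun i _ => isClosed_discrete _)
  have hS : ∀ I : Finset ι, cofinite ≤ 𝓟 ((I : Set ι)ᶜ) := by
    intro I
    rw [le_principal_iff, mem_cofinite, compl_compl]
    exact I.finite_toSet
  let C : Finset ι → Set D.K := fun I =>
    Set.range (RestrictedProduct.inclusion R (fun i => (D.L i : Set (R i))) (hS I))
  have hC : ∀ I, IsCompact (C I) := fun I => by
    have := hcomp ((I : Set ι)ᶜ)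
    exact isCompact_range (RestrictedProduct.continuous_inclusion (hS I))
  have hU : (⋃ I, C I) = Set.univ := by
    rw [Set.eq_univ_iff_forall]
    intro x
    have hfin : {i | x i ∉ D.L i}.Finite := x.2
    rw [Set.mem_iUnion]
    refine ⟨hfin.toFinset, ?_⟩
    simp only [C]
    rw [RestrictedProduct.range_inclusion]
    intro i hi
    by_contra h
    apply hi
    simp only [Finset.mem_coe, Set.Finite.mem_toFinset]
    exact h
  rw [← isSigmaCompact_univ_iff, ← hU]
  exact isSigmaCompact_iUnion_of_isCompact C hC

/-- The duality isomorphism. -/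
def dualEquiv [Countable ι] :
    Multiplicative D.K ≃ₜ* PontryaginDual (Multiplicative D.K) :=
  let e : Multiplicative D.K ≃* PontryaginDual (Multiplicative D.K) :=
    MulEquiv.ofBijective D.dual (show Function.Bijective D.dual from
      ⟨D.dual_injective, D.dual_surjective⟩)
  { e with
    continuous_toFun := D.dual_continuous
    continuous_invFun := by
      have h1 : SigmaCompactSpace (Multiplicative D.K) := D.sigmaCompact
      have h2 : IsOpenMap D.dual :=
        MonoidHom.isOpenMap_of_sigmaCompact D.dual D.dual_surjective D.dual_continuous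
      exact (Equiv.continuous_symm_iff e.toEquiv).mpr h2 }

theorem dualEquiv_apply [Countable ι] (x y : D.K) :
    D.dualEquiv (Multiplicative.ofAdd x) (Multiplicative.ofAdd y) = D.gf x y ^ 2 := rfl

theorem isMumford [Countable ι] : IsMumfordGroup (Tw D.gForm) :=
  isMumfordGroup_tw D.gForm D.gForm_nondeg D.dualEquiv (fun _ _ => rfl)

/-- If the twisted product is a generalized Heisenberg group and the local groups admit no
nonzero homomorphisms to each other, then almost all of the local groups have a
polarization compatible with `L`. -/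
theorem exists_local_polarization (hhom : ∀ i j, i ≠ j → ∀ f : R i →+ R j, f = 0)
    (h : IsGeneralizedHeisenberg.{u, v, w} (Tw D.gForm)) :
    ∃ I : Finset ι, ∀ i ∉ I, ∃ π : R i →+ R i, (∀ x, π (π x) = π x) ∧
      (∀ x y, D.c i (π x) (π y) ^ 2 = 1) ∧ (∀ x y, D.c i (x - π x) (y - π y) ^ 2 = 1) ∧
      (∀ x ∈ D.L i, π x ∈ D.L i) := by
  obtain ⟨π, hπc, hπi, hπ1, hπ2⟩ := exists_polarization D.gForm D.gForm_nondeg h
  have hO : ∀ i : ι, IsOpen ((D.L i : AddSubgroup (R i)) : Set (R i)) :=
    fun i => isOpen_discrete _
  have hU : π ⁻¹' {x : D.K | ∀ i, x i ∈ D.L i} ∈ 𝓝 (0 : D.K) := by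
    apply hπc.continuousAt
    rw [map_zero]
    apply (RestrictedProduct.isOpen_forall_mem hO).mem_nhds
    intro i
    exact zero_mem _
  obtain ⟨I, hI⟩ := D.exists_finite_nhds _ hU
  refine ⟨I, ?_⟩
  intro i hi
  let sg : R i →+ D.K := AddMonoidHom.mk' (D.sgl i) (D.sgl_add i)
  let ev : ∀ j, D.K →+ R j := fun j =>
    RestrictedProduct.evalAddMonoidHom R j (𝓕 := cofinite) (B := D.L)
  let ρ : R i →+ R i := (ev i).comp (π.comp sg)
  have hρ : ∀ x, ρ x = π (D.sgl i x) i := fun _ => rfl
  have hsg : ∀ x : R i, π (D.sgl i x) = D.sgl i (ρ x) := by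
    intro x
    apply RestrictedProduct.ext
    intro j
    by_cases hj : j = i
    · subst hj
      rw [sgl_same]
      exact (hρ x).symm
    · rw [sgl_ne _ _ hj]
      have := hhom i j (Ne.symm hj) ((ev j).comp (π.comp sg))
      exact DFunLike.congr_fun this x
  have hgf : ∀ x y : R i, D.gf (D.sgl i x) (D.sgl i y) = D.c i x y := by
    intro x y
    rw [gf_sgl_right, sgl_same]
  have hsub : ∀ x y : R i, D.sgl i x - D.sgl i y = D.sgl i (x - y) := fun x y =>
    (map_sub sg x y).symm
  refine ⟨ρ, ?_, ?_, ?_, ?_⟩
  · intro x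
    have h1 := hπi (D.sgl i x)
    rw [hsg, hsg] at h1
    have h2 := congrArg (fun z : D.K => z i) h1
    simpa only [sgl_same] using h2
  · intro x y
    have h1 := hπ1 (D.sgl i x) (D.sgl i y)
    rw [hsg, hsg] at h1
    change D.gf _ _ ^ 2 = 1 at h1
    rw [hgf] at h1
    exact h1
  · intro x y
    have h1 := hπ2 (D.sgl i x) (D.sgl i y)
    rw [hsg, hsg, hsub, hsub] at h1
    change D.gf _ _ ^ 2 = 1 at h1
    rw [hgf] at h1
    exact h1
  · intro x hx
    have h1 := hI (D.sgl i x) (D.sgl_mem hx) (by
      intro j hj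
      rw [sgl_ne]
      rintro rfl
      exact hi hj)
    have h2 : π (D.sgl i x) i ∈ D.L i := h1 i
    rw [hsg, sgl_same] at h2
    exact h2

end Fam

end Pool.Agent.H43.Mumford
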