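import Pool.Agent.H43.MumfordLocal
import Pool.Agent.H43.MumfordGlobal

/-!
# Assembly: a Mumford group that is not a generalized Heisenberg group
-/

noncomputable section

namespace Pool.Agent.H43.Mumford

open Topology Filter

universe u v w

/-- Odd primes. -/
def Idx : Type := {p : ℕ // p.Prime ∧ p ≠ 2}

namespace Idx

/-- the prime -/
def val (i : Idx) : ℕ := i.1

theorem prime (i : Idx) : i.val.Prime := i.2.1
theorem ne_two (i : Idx) : i.val ≠ 2 := i.2.2
theorem pos (i : Idx) : 0 < i.val := i.prime.pos
theorem one_lt (i : Idx) : 1 < i.val := i.prime.one_lt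
theorem odd (i : Idx) : Odd i.val := i.prime.odd_of_ne_two i.ne_two

instance (i : Idx) : NeZero i.val := ⟨i.pos.ne'⟩

instance : DecidableEq Idx := Classical.decEq _

instance : Countable Idx := inferInstanceAs (Countable {p : ℕ // p.Prime ∧ p ≠ 2})

theorem val_injective : Function.Injective val := Subtype.val_injective

instance : Infinite Idx := by
  apply Set.infinite_coe_iff.mpr
  have h : ({p : ℕ | p.Prime ∧ p ≠ 2} : Set ℕ) = {p : ℕ | p.Prime} \ {2} := by
    ext p; simp
  change ({p : ℕ | p.Prime ∧ p ≠ 2} : Set ℕ).Infinite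
  rw [h]
  exact Nat.infinite_setOfPred_prime.sdiff (Set.finite_singleton 2)

end Idx

/-! ### Local duality -/

namespace Loc

variable (i : Idx)

/-- The local bicharacter. -/
def chr (x y : Loc i.val) : Circle := ZMod.toCircle (form i.val x y)

theorem chr_add_left (x y z : Loc i.val) : chr i (x + y) z = chr i x z * chr i y z := by
  rw [chr, map_add, AddMonoidHom.add_apply, AddChar.map_add_eq_mul]; rfl

theorem chr_add_right (x y z : Loc i.val) : chr i x (y + z) = chr i x y * chr i x z := by
  rw [chr, map_add, AddChar.map_add_eq_mul]; rfl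

theorem chr_self (x : Loc i.val) : chr i x x = 1 := by
  rw [chr, form_self, AddChar.map_zero_eq_one]

theorem chr_of_form {x y : Loc i.val} (h : form i.val x y = 0) : chr i x y = 1 := by
  rw [chr, h, AddChar.map_zero_eq_one]

theorem chr_eq_one_of_mem {x y : Loc i.val} (hx : x ∈ lag i.val) (hy : y ∈ lag i.val) :
    chr i x y = 1 := chr_of_form i (lag_isotropic x hx y hy)

theorem form_of_chr_sq {x y : Loc i.val} (h : chr i x y ^ 2 = 1) : form i.val x y = 0 := by
  rw [chr, sq, ← AddChar.map_add_eq_mul,
    ← AddChar.map_zero_eq_one (ZMod.toCircle (N := i.val ^ 8))] at h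
  have h1 := ZMod.injective_toCircle h
  have h2 : (2 : ZMod (i.val ^ 8)) * form i.val x y = 0 := by rw [two_mul]; exact h1
  have hunit : IsUnit (2 : ZMod (i.val ^ 8)) := by
    have : IsUnit ((2 : ℕ) : ZMod (i.val ^ 8)) := by
      rw [ZMod.isUnit_iff_coprime]
      exact (Nat.coprime_two_left.mpr i.odd).pow_right 8
    simpa using this
  exact (hunit.mul_right_eq_zero).mp h2

theorem chr_zero_left (y : Loc i.val) : chr i 0 y = 1 := by
  rw [chr, map_zero, AddMonoidHom.zero_apply, AddChar.map_zero_eq_one]

theorem chr_zero_right (x : Loc i.val) : chr i x 0 = 1 := by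
  rw [chr, map_zero, AddChar.map_zero_eq_one]

/-- the character attached to `x` -/
def toChar (x : Loc i.val) : AddChar (Loc i.val) Circle where
  toFun y := chr i x y ^ 2
  map_zero_eq_one' := by rw [chr_zero_right, one_pow]
  map_add_eq_mul' y z := by rw [chr_add_right, mul_pow]

theorem toChar_injective : Function.Injective (toChar i) := by
  intro x x' h
  have h1 : ∀ y, chr i x y ^ 2 = chr i x' y ^ 2 := fun y => DFunLike.congr_fun h y
  rw [← sub_eq_zero]
  apply form_nondeg i.pos
  intro y
  apply form_of_chr_sq i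
  have h2 : chr i x y = chr i (x - x') y * chr i x' y := by
    rw [← chr_add_left, sub_add_cancel]
  have h3 := h1 y
  rw [h2, mul_pow] at h3
  exact mul_eq_right.mp h3

theorem toChar_surjective : Function.Surjective (toChar i) := by
  have hc : Nat.card (AddChar (Loc i.val) Circle) = Nat.card (Loc i.val) := by
    rw [Nat.card_congr (AddChar.circleEquivComplex (α := Loc i.val)).toEquiv]
    rw [Nat.card_eq_fintype_card, Nat.card_eq_fintype_card, AddChar.card_eq]
  have : Finite (AddChar (Loc i.val) Circle) :=
    Finite.of_equiv _ (AddChar.circleEquivComplex (α := Loc i.val)).toEquiv.symm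
  exact (Function.Injective.bijective_of_nat_card_le (toChar_injective i) hc.le).2

end Loc

open Loc

/-- The local groups, as a family over the odd primes. -/
def RR (i : Idx) : Type := Loc i.val

instance (i : Idx) : AddCommGroup (RR i) := inferInstanceAs (AddCommGroup (Loc i.val))
instance (i : Idx) : TopologicalSpace (RR i) := ⊥
instance (i : Idx) : DiscreteTopology (RR i) := ⟨rfl⟩
instance (i : Idx) : Finite (RR i) := inferInstanceAs (Finite (Loc i.val))

theorem exp_RR (i : Idx) (x : RR i) : (i.val ^ 8 : ℕ) • x = 0 := by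
  obtain ⟨a, b, c, d, h⟩ := exists_vec (p := i.val) x
  have h2 : ((i.val ^ 8 : ℕ) : ℤ) • (vec i.val a b c d) = 0 := by
    rw [zsmul_vec, vec_eq_zero_iff]
    push_cast
    exact ⟨⟨a, by ring⟩, ⟨b, by ring⟩, ⟨i.val ^ 4 * c, by ring⟩, ⟨i.val ^ 4 * d, by ring⟩⟩
  rw [natCast_zsmul, ← h] at h2
  exact h2

theorem hom_RR (i j : Idx) (hij : i ≠ j) (f : RR i →+ RR j) : f = 0 := by
  ext1 x
  have h1 : (i.val ^ 8 : ℕ) • f x = 0 := by
    rw [← map_nsmul, exp_RR, map_zero]
  have h2 : (j.val ^ 8 : ℕ) • f x = 0 := exp_RR j _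
  have hc : Nat.Coprime (i.val ^ 8) (j.val ^ 8) := by
    apply Nat.Coprime.pow
    rw [Nat.coprime_primes i.prime j.prime]
    exact fun h => hij (Idx.val_injective h)
  have h3 := addOrderOf_dvd_of_nsmul_eq_zero h1
  have h4 := addOrderOf_dvd_of_nsmul_eq_zero h2
  have h5 : addOrderOf (f x) = 1 := Nat.eq_one_of_dvd_coprimes hc h3 h4
  exact AddMonoid.addOrderOf_eq_one_iff.mp h5

/-- The family of local symplectic groups. -/
def D : Fam RR where
  L i := lag i.val
  c i := chr i
  add_left i := chr_add_left i
  add_right i := chr_add_right i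
  alt i := chr_self i
  iso i x y hx hy := chr_eq_one_of_mem i hx hy
  perp i x h := mem_lag_of_perp i.pos x (fun y hy => form_of_chr_sq i (h y hy))
  nondeg i x h := form_nondeg i.pos x (fun y => form_of_chr_sq i (h y))
  surj i χ := by
    obtain ⟨x, hx⟩ := toChar_surjective i χ
    exact ⟨x, fun y => (DFunLike.congr_fun hx y).symm⟩

theorem not_heisenberg : ¬ IsGeneralizedHeisenberg.{u, v, w} (Tw D.gForm) := by
  intro h
  obtain ⟨I, hI⟩ := D.exists_local_polarization hom_RR h
  obtain ⟨i, hi⟩ := Infinite.exists_notMem_finset I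
  obtain ⟨π, h1, h2, h3, h4⟩ := hI i hi
  exact no_polarization (p := i.val) i.one_lt π h1
    (fun x y => form_of_chr_sq i (h2 x y)) (fun x y => form_of_chr_sq i (h3 x y)) h4

/-- There is a locally compact Hausdorff Mumford group, with centre isomorphic to the circle
group, that is not a generalized Heisenberg group. -/
theorem main : ∃ (G : Type) (_ : Group G) (_ : TopologicalSpace G) (_ : IsTopologicalGroup G),
    T2Space G ∧ LocallyCompactSpace G ∧ IsMumfordGroup G ∧
      ¬ IsGeneralizedHeisenberg.{u, v, w} G :=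
  ⟨Tw D.gForm, inferInstance, inferInstance, inferInstance, inferInstance, inferInstance,
    D.isMumford, not_heisenberg⟩

end Pool.Agent.H43.Mumford
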