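import Mathlib

/-!
# The local symplectic group `F_p = (ℤ/p⁸)² × (ℤ/p⁴)²` and its Lagrangian subgroup
-/

noncomputable section

namespace Pool.Agent.H43.Mumford

/-- The finite group `(ℤ/p⁸)² × (ℤ/p⁴)²`. -/
abbrev Loc (p : ℕ) : Type := ZMod (p ^ 8) × ZMod (p ^ 8) × ZMod (p ^ 4) × ZMod (p ^ 4)

namespace Loc

variable {p : ℕ}

/-- Multiplication by `p⁴`, as a homomorphism `ℤ/p⁴ → ℤ/p⁸`. -/
def emb (p : ℕ) : ZMod (p ^ 4) →+ ZMod (p ^ 8) :=
  ZMod.lift (p ^ 4) ⟨(AddMonoidHom.mulLeft ((p : ZMod (p ^ 8)) ^ 4)).comp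
    (Int.castAddHom (ZMod (p ^ 8))), by
      have h : ((p ^ 8 : ℕ) : ZMod (p ^ 8)) = 0 := ZMod.natCast_self _
      simp only [AddMonoidHom.comp_apply, AddMonoidHom.coe_mulLeft, Int.coe_castAddHom]
      push_cast at h ⊢
      rw [← pow_add]
      exact h⟩

theorem emb_intCast (n : ℤ) : emb p ((n : ZMod (p ^ 4))) = ((p ^ 4 * n : ℤ) : ZMod (p ^ 8)) := by
  rw [emb, ZMod.lift_coe]
  simp

/-- The vector with the given integer coordinates. -/
def vec (p : ℕ) (a b c d : ℤ) : Loc p := ((a : ZMod (p ^ 8)), (b : ZMod (p ^ 8)),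
  (c : ZMod (p ^ 4)), (d : ZMod (p ^ 4)))

theorem exists_vec (x : Loc p) : ∃ a b c d : ℤ, x = vec p a b c d := by
  obtain ⟨x1, x2, x3, x4⟩ := x
  obtain ⟨a, rfl⟩ := ZMod.intCast_surjective x1
  obtain ⟨b, rfl⟩ := ZMod.intCast_surjective x2
  obtain ⟨c, rfl⟩ := ZMod.intCast_surjective x3
  obtain ⟨d, rfl⟩ := ZMod.intCast_surjective x4
  exact ⟨a, b, c, d, rfl⟩

theorem vec_eq_zero_iff (a b c d : ℤ) : vec p a b c d = 0 ↔
    (p : ℤ) ^ 8 ∣ a ∧ (p : ℤ) ^ 8 ∣ b ∧ (p : ℤ) ^ 4 ∣ c ∧ (p : ℤ) ^ 4 ∣ d := by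
  simp only [vec, Prod.mk_eq_zero]
  rw [ZMod.intCast_zmod_eq_zero_iff_dvd, ZMod.intCast_zmod_eq_zero_iff_dvd,
    ZMod.intCast_zmod_eq_zero_iff_dvd, ZMod.intCast_zmod_eq_zero_iff_dvd]
  push_cast
  rfl

theorem vec_add (a b c d a' b' c' d' : ℤ) :
    vec p a b c d + vec p a' b' c' d' = vec p (a + a') (b + b') (c + c') (d + d') := by
  simp [vec]

theorem zsmul_vec (n a b c d : ℤ) : n • vec p a b c d = vec p (n * a) (n * b) (n * c) (n * d) := by
  simp [vec]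

theorem vec_eq_iff (a b c d a' b' c' d' : ℤ) : vec p a b c d = vec p a' b' c' d' ↔
    (p : ℤ) ^ 8 ∣ a - a' ∧ (p : ℤ) ^ 8 ∣ b - b' ∧ (p : ℤ) ^ 4 ∣ c - c' ∧ (p : ℤ) ^ 4 ∣ d - d' := by
  rw [← vec_eq_zero_iff, ← sub_eq_zero]
  simp [vec]

/-- The alternating form with values in `ℤ/p⁸`. -/
def form (p : ℕ) : Loc p →+ Loc p →+ ZMod (p ^ 8) :=
  AddMonoidHom.mk' (fun x => AddMonoidHom.mk' (fun y =>
    x.1 * y.2.1 - x.2.1 * y.1 + emb p (x.2.2.1 * y.2.2.2 - x.2.2.2 * y.2.2.1))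
    (by
      intro y y'
      have : x.2.2.1 * (y + y').2.2.2 - x.2.2.2 * (y + y').2.2.1 =
        (x.2.2.1 * y.2.2.2 - x.2.2.2 * y.2.2.1) + (x.2.2.1 * y'.2.2.2 - x.2.2.2 * y'.2.2.1) := by
        simp only [Prod.snd_add, Prod.fst_add]; ring
      rw [this, map_add]
      simp only [Prod.snd_add, Prod.fst_add]; ring))
    (by
      intro x x'
      ext1 y
      have : (x + x').2.2.1 * y.2.2.2 - (x + x').2.2.2 * y.2.2.1 =
        (x.2.2.1 * y.2.2.2 - x.2.2.2 * y.2.2.1) + (x'.2.2.1 * y.2.2.2 - x'.2.2.2 * y.2.2.1) := by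
        simp only [Prod.snd_add, Prod.fst_add]; ring
      simp only [AddMonoidHom.mk'_apply, AddMonoidHom.add_apply]
      rw [this, map_add]
      simp only [Prod.snd_add, Prod.fst_add]; ring)

theorem form_apply (x y : Loc p) : form p x y =
    x.1 * y.2.1 - x.2.1 * y.1 + emb p (x.2.2.1 * y.2.2.2 - x.2.2.2 * y.2.2.1) := rfl

theorem form_vec (a b c d a' b' c' d' : ℤ) : form p (vec p a b c d) (vec p a' b' c' d') =
    ((a * b' - b * a' + p ^ 4 * (c * d' - d * c') : ℤ) : ZMod (p ^ 8)) := by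
  have h : (vec p a b c d).2.2.1 * (vec p a' b' c' d').2.2.2 -
      (vec p a b c d).2.2.2 * (vec p a' b' c' d').2.2.1 =
      ((c * d' - d * c' : ℤ) : ZMod (p ^ 4)) := by
    simp [vec]
  rw [form_apply, h, emb_intCast]
  simp [vec]

theorem form_vec_eq_zero_iff (a b c d a' b' c' d' : ℤ) :
    form p (vec p a b c d) (vec p a' b' c' d') = 0 ↔
    (p : ℤ) ^ 8 ∣ a * b' - b * a' + p ^ 4 * (c * d' - d * c') := by
  rw [form_vec, ZMod.intCast_zmod_eq_zero_iff_dvd]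
  push_cast
  rfl

theorem form_self (x : Loc p) : form p x x = 0 := by
  obtain ⟨a, b, c, d, rfl⟩ := exists_vec x
  rw [form_vec_eq_zero_iff]
  have : a * b - b * a + (p : ℤ) ^ 4 * (c * d - d * c) = 0 := by ring
  rw [this]
  exact dvd_zero _

theorem form_swap (x y : Loc p) : form p y x = - form p x y := by
  have h := form_self (x + y)
  simp only [map_add, AddMonoidHom.add_apply, form_self, zero_add, add_zero] at h
  exact eq_neg_of_add_eq_zero_right (by rw [add_comm]; exact h)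

theorem dvd_cancel (hp : 0 < p) {a b : ℕ} {x : ℤ} (h : (p : ℤ) ^ (a + b) ∣ p ^ a * x) :
    (p : ℤ) ^ b ∣ x := by
  rw [pow_add] at h
  have h0 : (p : ℤ) ^ a ≠ 0 := pow_ne_zero _ (by exact_mod_cast hp.ne')
  exact (mul_dvd_mul_iff_left h0).mp h

theorem form_nondeg (hp : 0 < p) (x : Loc p) (h : ∀ y, form p x y = 0) : x = 0 := by
  obtain ⟨a, b, c, d, rfl⟩ := exists_vec x
  rw [vec_eq_zero_iff]
  have h1 := (form_vec_eq_zero_iff a b c d 0 1 0 0).mp (h _)
  have h2 := (form_vec_eq_zero_iff a b c d 1 0 0 0).mp (h _)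
  have h3 := (form_vec_eq_zero_iff a b c d 0 0 0 1).mp (h _)
  have h4 := (form_vec_eq_zero_iff a b c d 0 0 1 0).mp (h _)
  refine ⟨?_, ?_, ?_, ?_⟩
  · convert h1 using 1; ring
  · have h2' : a * 0 - b * 1 + (p : ℤ) ^ 4 * (c * 0 - d * 0) = -b := by ring
    rw [h2', dvd_neg] at h2
    exact h2
  · apply dvd_cancel (a := 4) hp
    convert h3 using 1; ring
  · have h4' : a * 0 - b * 0 + (p : ℤ) ^ 4 * (c * 0 - d * 1) = -(p ^ 4 * d) := by ring
    rw [h4', dvd_neg] at h4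
    exact dvd_cancel (a := 4) hp h4

/-- generators of the Lagrangian -/
def g1 (p : ℕ) : Loc p := vec p 0 0 0 (p ^ 2)
/-- generators of the Lagrangian -/
def g2 (p : ℕ) : Loc p := vec p (p ^ 4) 0 (-p ^ 2) p
/-- generators of the Lagrangian -/
def g3 (p : ℕ) : Loc p := vec p 0 (p ^ 2) 0 1

/-- The Lagrangian subgroup. -/
def lag (p : ℕ) : AddSubgroup (Loc p) := AddSubgroup.closure {g1 p, g2 p, g3 p}

theorem g1_mem : g1 p ∈ lag p := AddSubgroup.subset_closure (by simp)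
theorem g2_mem : g2 p ∈ lag p := AddSubgroup.subset_closure (by simp)
theorem g3_mem : g3 p ∈ lag p := AddSubgroup.subset_closure (by simp)

theorem form_lag_of (x : Loc p) (h1 : form p x (g1 p) = 0) (h2 : form p x (g2 p) = 0)
    (h3 : form p x (g3 p) = 0) : ∀ y ∈ lag p, form p x y = 0 := by
  intro y hy
  have : lag p ≤ (form p x).ker := by
    rw [lag, AddSubgroup.closure_le]
    intro z hz
    simp only [Set.mem_insert_iff, Set.mem_singleton_iff] at hz
    rcases hz with rfl | rfl | rfl <;> assumption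
  exact this hy

theorem lag_isotropic : ∀ x ∈ lag p, ∀ y ∈ lag p, form p x y = 0 := by
  have h11 : form p (g1 p) (g1 p) = 0 := form_self _
  have h22 : form p (g2 p) (g2 p) = 0 := form_self _
  have h33 : form p (g3 p) (g3 p) = 0 := form_self _
  have h12 : form p (g1 p) (g2 p) = 0 := by
    rw [g1, g2, form_vec_eq_zero_iff]
    exact ⟨1, by ring⟩
  have h13 : form p (g1 p) (g3 p) = 0 := by
    rw [g1, g3, form_vec_eq_zero_iff]
    exact ⟨0, by ring⟩
  have h23 : form p (g2 p) (g3 p) = 0 := by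
    rw [g2, g3, form_vec_eq_zero_iff]
    exact ⟨0, by ring⟩
  have h21 : form p (g2 p) (g1 p) = 0 := by rw [form_swap, h12, neg_zero]
  have h31 : form p (g3 p) (g1 p) = 0 := by rw [form_swap, h13, neg_zero]
  have h32 : form p (g3 p) (g2 p) = 0 := by rw [form_swap, h23, neg_zero]
  intro x hx y hy
  have k1 := form_lag_of (g1 p) h11 h12 h13 x hx
  have k2 := form_lag_of (g2 p) h21 h22 h23 x hx
  have k3 := form_lag_of (g3 p) h31 h32 h33 x hx
  refine form_lag_of x ?_ ?_ ?_ y hy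
  · rw [form_swap, k1, neg_zero]
  · rw [form_swap, k2, neg_zero]
  · rw [form_swap, k3, neg_zero]

theorem mem_lag_of_perp (hp : 0 < p) (x : Loc p) (h : ∀ y ∈ lag p, form p x y = 0) :
    x ∈ lag p := by
  obtain ⟨a, b, c, d, rfl⟩ := exists_vec x
  have h1 := (form_vec_eq_zero_iff a b c d _ _ _ _).mp (h _ g1_mem)
  have h2 := (form_vec_eq_zero_iff a b c d _ _ _ _).mp (h _ g2_mem)
  have h3 := (form_vec_eq_zero_iff a b c d _ _ _ _).mp (h _ g3_mem)
  have k1 : (p : ℤ) ^ 2 ∣ c := by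
    apply dvd_cancel (a := 6) hp
    convert h1 using 1; ring
  obtain ⟨T, rfl⟩ := k1
  have k3 : (p : ℤ) ^ 6 ∣ a + p ^ 4 * T := by
    apply dvd_cancel (a := 2) hp
    convert h3 using 1; ring
  obtain ⟨S, hS⟩ := k3
  have k2 : (p : ℤ) ^ 4 ∣ -b + p ^ 3 * T + p ^ 2 * d := by
    apply dvd_cancel (a := 4) hp
    convert h2 using 1; ring
  obtain ⟨R, hR⟩ := k2
  have ha : a = p ^ 6 * S - p ^ 4 * T := by linear_combination hS
  have hb : b = p ^ 3 * T + p ^ 2 * d - p ^ 4 * R := by linear_combination -hR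
  have key : vec p a b (p ^ 2 * T) d =
      (p ^ 2 * S - T) • g2 p + (p * T + d - p ^ 2 * R) • g3 p + (R - p * S) • g1 p := by
    rw [g1, g2, g3, zsmul_vec, zsmul_vec, zsmul_vec, vec_add, vec_add, vec_eq_iff]
    refine ⟨⟨0, ?_⟩, ⟨0, ?_⟩, ⟨S, ?_⟩, ⟨0, ?_⟩⟩
    · rw [ha]; ring
    · rw [hb]; ring
    · ring
    · ring
  rw [key]
  exact add_mem (add_mem (zsmul_mem g2_mem _) (zsmul_mem g3_mem _)) (zsmul_mem g1_mem _)

/-- There is no polarization of `Loc p` compatible with the Lagrangian `lag p`. -/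
theorem no_polarization (hp : 1 < p) (π : Loc p →+ Loc p) (hidem : ∀ x, π (π x) = π x)
    (hiso : ∀ x y, form p (π x) (π y) = 0)
    (hiso' : ∀ x y, form p (x - π x) (y - π y) = 0)
    (hL : ∀ x ∈ lag p, π x ∈ lag p) : False := by
  have hp0 : 0 < p := by omega
  have hadj : ∀ x y, form p (π x) y + form p x (π y) - form p x y = 0 := by
    intro x y
    have h := hiso' x y
    simp only [map_sub, AddMonoidHom.sub_apply, hiso, sub_zero] at h
    rw [← neg_eq_zero]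
    rw [← h]
    abel
  obtain ⟨a11, a12, a13, a14, h1⟩ := exists_vec (π (vec p 1 0 0 0))
  obtain ⟨a21, a22, a23, a24, h2⟩ := exists_vec (π (vec p 0 1 0 0))
  obtain ⟨a31, a32, a33, a34, h3⟩ := exists_vec (π (vec p 0 0 1 0))
  obtain ⟨a41, a42, a43, a44, h4⟩ := exists_vec (π (vec p 0 0 0 1))
  have hπ : ∀ a b c d : ℤ, π (vec p a b c d) =
      vec p (a * a11 + b * a21 + c * a31 + d * a41) (a * a12 + b * a22 + c * a32 + d * a42)
        (a * a13 + b * a23 + c * a33 + d * a43) (a * a14 + b * a24 + c * a34 + d * a44) := by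
    intro a b c d
    have : vec p a b c d = a • vec p 1 0 0 0 + b • vec p 0 1 0 0 + c • vec p 0 0 1 0 +
        d • vec p 0 0 0 1 := by
      simp only [zsmul_vec, vec_add]
      simp
    rw [this, map_add, map_add, map_add, map_zsmul, map_zsmul, map_zsmul, map_zsmul,
      h1, h2, h3, h4]
    simp only [zsmul_vec, vec_add]
  -- adjunction relations
  have A : ∀ a b c d a' b' c' d' : ℤ, (p : ℤ) ^ 8 ∣
      ((a * a11 + b * a21 + c * a31 + d * a41) * b' - (a * a12 + b * a22 + c * a32 + d * a42) * a' +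
        p ^ 4 * ((a * a13 + b * a23 + c * a33 + d * a43) * d' -
          (a * a14 + b * a24 + c * a34 + d * a44) * c')) +
      (a * (a' * a12 + b' * a22 + c' * a32 + d' * a42) -
        b * (a' * a11 + b' * a21 + c' * a31 + d' * a41) +
        p ^ 4 * (c * (a' * a14 + b' * a24 + c' * a34 + d' * a44) -
          d * (a' * a13 + b' * a23 + c' * a33 + d' * a43))) -
      (a * b' - b * a' + p ^ 4 * (c * d' - d * c')) := by
    intro a b c d a' b' c' d'
    have h := hadj (vec p a b c d) (vec p a' b' c' d')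
    rw [hπ, hπ, form_vec, form_vec, form_vec, ← Int.cast_add, ← Int.cast_sub,
      ZMod.intCast_zmod_eq_zero_iff_dvd] at h
    push_cast at h
    exact h
  have A23 := A 0 1 0 0 0 0 0 1
  have A12 := A 1 0 0 0 0 0 1 0
  have A13 := A 1 0 0 0 0 0 0 1
  have A33 := A 0 0 1 0 0 0 0 1
  obtain ⟨r23, hr23⟩ := A23
  obtain ⟨r12, hr12⟩ := A12
  obtain ⟨r13, hr13⟩ := A13
  obtain ⟨r33, hr33⟩ := A33
  have hp4 : (p : ℤ) ^ 4 ≠ 0 := pow_ne_zero _ (by exact_mod_cast hp0.ne')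
  have e41 : a41 = p ^ 4 * a23 - p ^ 8 * r23 := by linear_combination -hr23
  have e32 : a32 = p ^ 4 * a14 + p ^ 8 * r12 := by linear_combination hr12
  have e42 : a42 = -p ^ 4 * a13 + p ^ 8 * r13 := by linear_combination hr13
  have e33 : a33 + a44 = 1 + p ^ 4 * r33 := by
    apply mul_left_cancel₀ hp4
    linear_combination hr33
  -- the order of the third basis vector
  have e31 : (p : ℤ) ^ 4 ∣ a31 := by
    have h0 : (p : ℤ) ^ 4 • vec p 0 0 1 0 = 0 := by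
      rw [zsmul_vec, vec_eq_zero_iff]
      exact ⟨⟨0, by ring⟩, ⟨0, by ring⟩, ⟨1, by ring⟩, ⟨0, by ring⟩⟩
    have h5 := congrArg π h0
    rw [map_zsmul, h3, map_zero, zsmul_vec, vec_eq_zero_iff] at h5
    exact dvd_cancel (a := 4) hp0 h5.1
  obtain ⟨s31, hs31⟩ := e31
  -- stability of the Lagrangian
  have H13 := lag_isotropic _ (hL _ g1_mem) _ g3_mem
  have H22 := lag_isotropic _ (hL _ g2_mem) _ g2_mem
  rw [g1, g3, hπ, form_vec_eq_zero_iff] at H13
  rw [g2, hπ, form_vec_eq_zero_iff] at H22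
  obtain ⟨t13, ht13⟩ := H13
  obtain ⟨t22, ht22⟩ := H22
  have e43 : (p : ℤ) ^ 2 ∣ a43 := by
    apply dvd_cancel (a := 6) hp0
    refine ⟨t13 - a23 + p ^ 4 * r23, ?_⟩
    rw [e41] at ht13
    linear_combination ht13
  obtain ⟨s43, hs43⟩ := e43
  have e44 : (p : ℤ) ∣ a44 - a33 := by
    have : (p : ℤ) ^ 1 ∣ a44 - a33 := by
      apply dvd_cancel (a := 7) hp0
      refine ⟨t22 + a12 - s43 + a34 - 2 * p * a13 - 2 * p ^ 2 * a14 + p ^ 5 * r13 -
        p ^ 6 * r12, ?_⟩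
      rw [e42, e32, hs43] at ht22
      linear_combination (exp := 1) ht22
    simpa using this
  -- idempotency
  have hid := hidem (vec p 0 0 1 0)
  rw [h3, hπ, vec_eq_iff] at hid
  obtain ⟨t, ht⟩ := hid.2.2.1
  have e : (p : ℤ) ∣ a33 ^ 2 - a33 := by
    refine ⟨p ^ 3 * t - p ^ 3 * s31 * a13 - p ^ 3 * (a14 + p ^ 4 * r12) * a23 - a34 * p * s43, ?_⟩
    rw [hs31, e32, hs43] at ht
    linear_combination ht
  obtain ⟨q1, hq1⟩ := e
  obtain ⟨q2, hq2⟩ := e44
  have hfin : (p : ℤ) ∣ 1 := by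
    -- `2 a33 = 1 + p (p^3 r33 - q2)`
    have h2 : 2 * a33 = 1 + p * (p ^ 3 * r33 - q2) := by linear_combination e33 - hq2
    refine ⟨(p ^ 3 * r33 - q2) ^ 2 * p - 4 * q1, ?_⟩
    have h3 : (2 * a33 - 1) ^ 2 = (p * (p ^ 3 * r33 - q2)) ^ 2 := by
      rw [h2]; ring
    linear_combination h3 - 4 * hq1
  have h9 : (p : ℤ) ≤ 1 := Int.le_of_dvd one_pos hfin
  omega

end Loc

end Pool.Agent.H43.Mumford
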