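import Pool.Agent.H43.MumfordDefs

/-!
# The central extension of an abelian group by the circle attached to an alternating bicharacter
-/

noncomputable section

namespace Pool.Agent.H43.Mumford

open Topology

universe u v w

/-- A continuous alternating bicharacter on a topological abelian group. -/
structure AltForm (K : Type) [AddCommGroup K] [TopologicalSpace K] where
  /-- the bicharacter -/
  f : K → K → Circle
  add_left : ∀ x y z, f (x + y) z = f x z * f y z
  add_right : ∀ x y z, f x (y + z) = f x y * f x z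
  alt : ∀ x, f x x = 1
  cont : Continuous fun p : K × K => f p.1 p.2

namespace AltForm

variable {K : Type} [AddCommGroup K] [TopologicalSpace K] (B : AltForm K)

theorem zero_left (y : K) : B.f 0 y = 1 := by
  have h := B.add_left 0 0 y
  rw [add_zero] at h
  exact (mul_eq_left.mp h.symm)

theorem zero_right (x : K) : B.f x 0 = 1 := by
  have h := B.add_right x 0 0
  rw [add_zero] at h
  exact (mul_eq_left.mp h.symm)

theorem neg_left (x y : K) : B.f (-x) y = (B.f x y)⁻¹ := by
  have h := B.add_left (-x) x y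
  rw [neg_add_cancel, B.zero_left] at h
  exact eq_inv_of_mul_eq_one_left h.symm

theorem neg_right (x y : K) : B.f x (-y) = (B.f x y)⁻¹ := by
  have h := B.add_right x (-y) y
  rw [neg_add_cancel, B.zero_right] at h
  exact eq_inv_of_mul_eq_one_left h.symm

theorem sub_left (x y z : K) : B.f (x - y) z = B.f x z * (B.f y z)⁻¹ := by
  rw [sub_eq_add_neg, B.add_left, B.neg_left]

theorem swap (x y : K) : B.f y x = (B.f x y)⁻¹ := by
  have h := B.alt (x + y)
  rw [B.add_left, B.add_right, B.add_right, B.alt, B.alt, one_mul, mul_one] at h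
  exact (inv_eq_of_mul_eq_one_right h).symm

end AltForm

/-- The twisted product `Circle × K`. -/
def Tw {K : Type} [AddCommGroup K] [TopologicalSpace K] (_ : AltForm K) : Type := Circle × K

namespace Tw

variable {K : Type} [AddCommGroup K] [TopologicalSpace K] {B : AltForm K}

instance : TopologicalSpace (Tw B) := inferInstanceAs (TopologicalSpace (Circle × K))

instance [T2Space K] : T2Space (Tw B) := inferInstanceAs (T2Space (Circle × K))

instance [LocallyCompactSpace K] : LocallyCompactSpace (Tw B) :=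
  inferInstanceAs (LocallyCompactSpace (Circle × K))

/-- constructor -/
def mk (B : AltForm K) (t : Circle) (k : K) : Tw B := (t, k)

/-- circle coordinate -/
def t (x : Tw B) : Circle := x.1

/-- coordinate in `K` -/
def k (x : Tw B) : K := x.2

@[simp] theorem mk_t (t : Circle) (k : K) : (mk B t k).t = t := rfl
@[simp] theorem mk_k (t : Circle) (k : K) : (mk B t k).k = k := rfl

theorem ext' {x y : Tw B} (h1 : x.t = y.t) (h2 : x.k = y.k) : x = y := Prod.ext h1 h2

theorem continuous_t : Continuous (t : Tw B → Circle) := continuous_fst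
theorem continuous_k : Continuous (k : Tw B → K) := continuous_snd

theorem continuous_mk {X : Type*} [TopologicalSpace X] {f : X → Circle} {g : X → K}
    (hf : Continuous f) (hg : Continuous g) : Continuous fun x => mk B (f x) (g x) :=
  Continuous.prodMk hf hg

instance : Mul (Tw B) := ⟨fun x y => mk B (x.t * y.t * B.f x.k y.k) (x.k + y.k)⟩
instance : One (Tw B) := ⟨mk B 1 0⟩
instance : Inv (Tw B) := ⟨fun x => mk B (x.t)⁻¹ (-x.k)⟩

@[simp] theorem mul_t (x y : Tw B) : (x * y).t = x.t * y.t * B.f x.k y.k := rfl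
@[simp] theorem mul_k (x y : Tw B) : (x * y).k = x.k + y.k := rfl
@[simp] theorem one_t : (1 : Tw B).t = 1 := rfl
@[simp] theorem one_k : (1 : Tw B).k = 0 := rfl
@[simp] theorem inv_t (x : Tw B) : (x⁻¹).t = (x.t)⁻¹ := rfl
@[simp] theorem inv_k (x : Tw B) : (x⁻¹).k = -x.k := rfl

instance : Group (Tw B) :=
  Group.ofLeftAxioms
    (fun x y z => by
      apply ext'
      · simp only [mul_t, mul_k, B.add_left, B.add_right]
        simp only [mul_assoc, mul_comm, mul_left_comm]
      · simp only [mul_k, add_assoc])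
    (fun x => by
      apply ext'
      · simp [B.zero_left]
      · simp)
    (fun x => by
      apply ext'
      · simp [B.neg_left, B.alt]
      · simp)

instance [IsTopologicalAddGroup K] : IsTopologicalGroup (Tw B) where
  continuous_mul := by
    refine continuous_mk (B := B) ?_ ?_
    · refine Continuous.mul (Continuous.mul (continuous_t.comp continuous_fst)
        (continuous_t.comp continuous_snd)) ?_
      exact B.cont.comp (Continuous.prodMk (continuous_k.comp continuous_fst)
        (continuous_k.comp continuous_snd))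
    · exact Continuous.add (continuous_k.comp continuous_fst) (continuous_k.comp continuous_snd)
  continuous_inv := by
    refine continuous_mk (B := B) ?_ ?_
    · exact continuous_t.inv
    · exact continuous_k.neg

theorem mul_eq_comm_mul (x y : Tw B) :
    x * y = mk B (B.f x.k y.k ^ 2) 0 * (y * x) := by
  apply ext'
  · have h : ∀ a b c : Circle, a * b * c = c ^ 2 * (b * a * c⁻¹) := by
      intro a b c
      rw [mul_left_comm, sq, mul_assoc c c, mul_inv_cancel, mul_one, mul_comm a b]
    simp only [mul_t, mul_k, mk_t, mk_k, B.zero_left, mul_one]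
    rw [B.swap x.k y.k]
    exact h _ _ _
  · simp [add_comm]

theorem comm_eq (x y : Tw B) :
    x * y * x⁻¹ * y⁻¹ = mk B (B.f x.k y.k ^ 2) 0 := by
  rw [mul_inv_eq_iff_eq_mul, mul_inv_eq_iff_eq_mul, mul_assoc]
  exact mul_eq_comm_mul x y

theorem mem_center_iff (x : Tw B) :
    x ∈ Subgroup.center (Tw B) ↔ ∀ y, B.f x.k y ^ 2 = 1 := by
  rw [Subgroup.mem_center_iff]
  constructor
  · intro h y
    have h1 := h (mk B 1 y)
    have h2 := mul_eq_comm_mul x (mk B 1 y)
    rw [h1] at h2
    have h3 := mul_eq_right.mp h2.symm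
    have h4 := congrArg t h3
    simpa using h4
  · intro h g
    have h2 := mul_eq_comm_mul x g
    rw [h2, h g.k]
    exact (one_mul _).symm

/-- The hypothesis that the square of the form is nondegenerate. -/
def Nondeg (B : AltForm K) : Prop := ∀ x, (∀ y, B.f x y ^ 2 = 1) → x = 0

theorem mem_center_iff' (hB : Nondeg B) (x : Tw B) :
    x ∈ Subgroup.center (Tw B) ↔ x.k = 0 := by
  rw [mem_center_iff]
  constructor
  · exact fun h => hB _ h
  · intro h y
    rw [h, B.zero_left, one_pow]

theorem comm_mem_center (x y : Tw B) :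
    x * y * x⁻¹ * y⁻¹ ∈ Subgroup.center (Tw B) := by
  rw [comm_eq, mem_center_iff]
  intro y
  rw [mk_k, B.zero_left, one_pow]

/-- The centre is the circle. -/
def centerEquiv (hB : Nondeg B) : Subgroup.center (Tw B) ≃ₜ* Circle where
  toFun x := (x : Tw B).t
  invFun t := ⟨mk B t 0, (mem_center_iff' hB _).mpr rfl⟩
  left_inv x := by
    apply Subtype.ext
    apply ext'
    · rfl
    · exact ((mem_center_iff' hB _).mp x.2).symm
  right_inv t := rfl
  map_mul' x y := by
    change (x : Tw B).t * (y : Tw B).t * B.f (x : Tw B).k (y : Tw B).k = _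
    rw [(mem_center_iff' hB _).mp x.2, B.zero_left, mul_one]
  continuous_toFun := continuous_t.comp continuous_subtype_val
  continuous_invFun := by
    apply Continuous.subtype_mk
    exact continuous_mk continuous_id continuous_const

/-- The projection onto `K`, multiplicatively. -/
def proj (B : AltForm K) : Tw B →* Multiplicative K where
  toFun x := Multiplicative.ofAdd x.k
  map_one' := rfl
  map_mul' _ _ := rfl

/-- The quotient by the centre is `K`. -/
def quotEquiv (hB : Nondeg B) :
    (Tw B ⧸ Subgroup.center (Tw B)) ≃ₜ* Multiplicative K where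
  toFun := QuotientGroup.lift (Subgroup.center (Tw B)) (proj B) (fun x hx => by
    have := (mem_center_iff' hB x).mp hx
    change Multiplicative.ofAdd x.k = 1
    rw [this]; rfl)
  invFun k := QuotientGroup.mk (mk B 1 (Multiplicative.toAdd k))
  left_inv x := by
    induction x using QuotientGroup.induction_on with
    | H x =>
      change (QuotientGroup.mk (mk B 1 x.k) : Tw B ⧸ Subgroup.center (Tw B)) = QuotientGroup.mk x
      rw [QuotientGroup.eq, mem_center_iff' hB]
      simp
  right_inv k := rfl
  map_mul' x y := map_mul _ x y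
  continuous_toFun := by
    apply Continuous.quotient_lift
    exact continuous_ofAdd.comp continuous_k
  continuous_invFun := by
    refine QuotientGroup.continuous_mk.comp ?_
    exact continuous_mk continuous_const continuous_toAdd

theorem quotEquiv_mk (hB : Nondeg B) (x : Tw B) :
    quotEquiv hB (QuotientGroup.mk x) = Multiplicative.ofAdd x.k := rfl

end Tw

/-- Functoriality of the dual for isomorphisms. -/
def dualCongr {Q R : Type} [CommGroup R] [Group Q] [TopologicalSpace Q] [TopologicalSpace R]
    (q : Q ≃ₜ* R) : PontryaginDual R ≃ₜ* PontryaginDual Q where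
  toFun := PontryaginDual.map (q : Q →ₜ* R)
  invFun := PontryaginDual.map (q.symm : R →ₜ* Q)
  left_inv χ := by
    apply PontryaginDual.ext
    intro a
    simp
  right_inv χ := by
    apply PontryaginDual.ext
    intro a
    simp
  map_mul' x y := map_mul _ x y
  continuous_toFun := map_continuous _
  continuous_invFun := map_continuous _

theorem isMumfordGroup_tw {K : Type} [AddCommGroup K] [TopologicalSpace K]
    [IsTopologicalAddGroup K] (B : AltForm K) (hB : Tw.Nondeg B)
    (N : Multiplicative K ≃ₜ* PontryaginDual (Multiplicative K))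
    (hN : ∀ x y : K, N (Multiplicative.ofAdd x) (Multiplicative.ofAdd y) = B.f x y ^ 2) :
    IsMumfordGroup (Tw B) := by
  refine ⟨Tw.comm_mem_center, Tw.centerEquiv hB,
    ((Tw.quotEquiv hB).trans N).trans (dualCongr (Tw.quotEquiv hB)), ?_⟩
  intro a b
  rw [Tw.comm_eq]
  have : ((((Tw.quotEquiv hB).trans N).trans (dualCongr (Tw.quotEquiv hB)))
      (a : Tw B ⧸ Subgroup.center (Tw B))) (b : Tw B ⧸ Subgroup.center (Tw B)) =
      B.f a.k b.k ^ 2 := by
    rw [← hN]
    rfl
  rw [this]
  rfl

theorem mem_center_of_mulEquiv {G H : Type*} [Group G] [Group H] (Φ : G ≃* H) {z : G}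
    (hz : z ∈ Subgroup.center G) : Φ z ∈ Subgroup.center H := by
  rw [Subgroup.mem_center_iff] at hz ⊢
  intro g
  have := hz (Φ.symm g)
  have h2 := congrArg Φ this
  simpa using h2

/-- If the twisted product is a generalized Heisenberg group then `K` has a polarization. -/
theorem exists_polarization {K : Type} [AddCommGroup K] [TopologicalSpace K]
    [IsTopologicalAddGroup K] (B : AltForm K) (hB : Tw.Nondeg B)
    (h : IsGeneralizedHeisenberg.{u, v, w} (Tw B)) :
    ∃ π : K →+ K, Continuous π ∧ (∀ x, π (π x) = π x) ∧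
      (∀ x y, B.f (π x) (π y) ^ 2 = 1) ∧ (∀ x y, B.f (x - π x) (y - π y) ^ 2 = 1) := by
  obtain ⟨A, E, F, iA, iE, iF, tA, tE, tF, _, _, _, ω, hω, ⟨Φ⟩⟩ := h
  have hbcont : Continuous (fun x : GenHeis ω => x.b) := by
    have h1 : Continuous (fun x : GenHeis ω => (x.a, x.b, x.c)) := continuous_induced_dom
    exact (continuous_fst.comp (continuous_snd.comp h1))
  have hEcont : Continuous (fun b : E => (⟨0, b, 0⟩ : GenHeis ω)) := by
    apply continuous_induced_rng.mpr
    exact Continuous.prodMk continuous_const (Continuous.prodMk continuous_id continuous_const)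
  -- elements of `E` on which `ω` vanishes are sent to the centre
  have hcen : ∀ g : GenHeis ω, g ∈ Subgroup.center (GenHeis ω) → (Φ.symm g).k = 0 := by
    intro g hg
    exact (Tw.mem_center_iff' hB _).mp (mem_center_of_mulEquiv Φ.symm.toMulEquiv hg)
  have hcenA : ∀ a : A, (⟨a, 0, 0⟩ : GenHeis ω) ∈ Subgroup.center (GenHeis ω) := by
    intro a
    rw [Subgroup.mem_center_iff]
    intro g
    ext <;> simp [add_comm]
  have hcenz : ∀ z : Tw B, z ∈ Subgroup.center (Tw B) →
      (⟨0, (Φ z).b, 0⟩ : GenHeis ω) ∈ Subgroup.center (GenHeis ω) := by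
    intro z hz
    have hz' : Φ z ∈ Subgroup.center (GenHeis ω) :=
      mem_center_of_mulEquiv Φ.toMulEquiv hz
    rw [Subgroup.mem_center_iff] at hz' ⊢
    have h0 : ∀ c : F, ω (Φ z).b c = 0 := by
      intro c
      have h1 := congrArg GenHeis.a (hz' ⟨0, 0, c⟩)
      simpa using h1.symm
    intro g
    ext
    · simp [h0]
    · simp [add_comm]
    · simp
  let σ : E →+ K := AddMonoidHom.mk' (fun b => (Φ.symm ⟨0, b, 0⟩).k) (by
    intro b b'
    rw [← Tw.mul_k, ← map_mul]
    congr 2
    ext <;> simp)
  have hσ : ∀ b, σ b = (Φ.symm ⟨0, b, 0⟩).k := fun _ => rfl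
  have hσz : ∀ z : Tw B, z ∈ Subgroup.center (Tw B) → σ (Φ z).b = 0 := by
    intro z hz
    rw [hσ]
    exact hcen _ (hcenz z hz)
  have hσg : ∀ g : Tw B, σ (Φ g).b = σ (Φ (Tw.mk B 1 g.k)).b := by
    intro g
    have h1 : g = Tw.mk B g.t 0 * Tw.mk B 1 g.k := by
      apply Tw.ext'
      · simp [B.zero_left]
      · simp
    have h2 : (Φ g).b = (Φ (Tw.mk B g.t 0)).b + (Φ (Tw.mk B 1 g.k)).b := by
      conv_lhs => rw [h1]
      rw [map_mul]
      rfl
    rw [h2, map_add, hσz _ ((Tw.mem_center_iff' hB _).mpr rfl), zero_add]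
  let π : K →+ K := AddMonoidHom.mk' (fun k => σ (Φ (Tw.mk B 1 k)).b) (by
    intro k k'
    have h1 : σ (Φ (Tw.mk B 1 k * Tw.mk B 1 k')).b =
        σ (Φ (Tw.mk B 1 k)).b + σ (Φ (Tw.mk B 1 k')).b := by
      rw [map_mul, GenHeis.mul_b, map_add]
    rw [← h1, hσg (Tw.mk B 1 k * Tw.mk B 1 k')]
    rfl)
  have hπ : ∀ g : Tw B, π g.k = σ (Φ g).b := fun g => (hσg g).symm
  have hπ' : ∀ k : K, π k = σ (Φ (Tw.mk B 1 k)).b := fun _ => rfl
  have hcomm : ∀ g g' : Tw B, g * g' = g' * g → B.f g.k g'.k ^ 2 = 1 := by
    intro g g' hgg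
    have h2 := Tw.mul_eq_comm_mul g g'
    rw [hgg] at h2
    have h3 := mul_eq_right.mp h2.symm
    have h4 := congrArg Tw.t h3
    simpa using h4
  have hsub : ∀ x : K, x - π x = (Φ.symm ⟨0, 0, (Φ (Tw.mk B 1 x)).c⟩).k := by
    intro x
    set g := Tw.mk B 1 x with hg
    have h1 : Φ g = ⟨(Φ g).a - ω (Φ g).b (Φ g).c, 0, 0⟩ * (⟨0, (Φ g).b, 0⟩ *
        ⟨0, 0, (Φ g).c⟩) := by
      ext <;> simp
    have h2 : g = Φ.symm ⟨(Φ g).a - ω (Φ g).b (Φ g).c, 0, 0⟩ * (Φ.symm ⟨0, (Φ g).b, 0⟩ *
        Φ.symm ⟨0, 0, (Φ g).c⟩) := by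
      rw [← map_mul, ← map_mul, ← h1]
      simp
    have h3 := congrArg Tw.k h2
    rw [Tw.mul_k, Tw.mul_k, hcen _ (hcenA _), zero_add] at h3
    have h4 : x = g.k := rfl
    rw [hπ', ← hg, hσ, h4, sub_eq_iff_eq_add, add_comm]
    exact h3
  refine ⟨π, ?_, ?_, ?_, ?_⟩
  · change Continuous (fun k => (Φ.symm ⟨0, (Φ (Tw.mk B 1 k)).b, 0⟩).k)
    refine Tw.continuous_k.comp (Φ.symm.continuous.comp (hEcont.comp (hbcont.comp
      (Φ.continuous.comp ?_))))
    exact Tw.continuous_mk continuous_const continuous_id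
  · intro x
    rw [hπ' x, hσ, hπ]
    simp [hσ]
  · intro x y
    rw [hπ' x, hσ, hπ' y, hσ]
    apply hcomm
    rw [← map_mul, ← map_mul]
    congr 1
    ext <;> simp [add_comm]
  · intro x y
    rw [hsub, hsub]
    apply hcomm
    rw [← map_mul, ← map_mul]
    congr 1
    ext <;> simp [add_comm]

end Pool.Agent.H43.Mumford
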